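import Mathlib
import Pool.Agent.Helper43.Hw.Goals

/-! Project Hw, packet H9: few pending skips of the zone. -/

set_option autoImplicit false

namespace Pool.Agent.Helper43.Hw.PkH9

open Finset
open Pool.Agent.Helper43.Gm (st mv nn Run Pri)

/-- the harmonic sum -/
theorem harm (A : ℕ) : ∀ L m : ℕ, m < 2 ^ L → ∑ i ∈ range m, A / (i + 1) ≤ A * L := by
  intro L
  induction L with
  | zero =>
    intro m hm
    have : m = 0 := by simpa using hm
    rw [this]
    simp
  | succ L ih =>
    intro m hm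
    have hpos : 0 < 2 ^ L := by positivity
    rcases Nat.lt_or_ge m (2 ^ L) with h | h
    · exact (ih m h).trans (Nat.mul_le_mul_left _ (by omega))
    · have hs : ∑ i ∈ range m, A / (i + 1) =
          ∑ i ∈ range (2 ^ L - 1), A / (i + 1) + ∑ i ∈ Ico (2 ^ L - 1) m, A / (i + 1) :=
        (sum_range_add_sum_Ico _ (by omega)).symm
      have h1 := ih (2 ^ L - 1) (by omega)
      have h2 : ∑ i ∈ Ico (2 ^ L - 1) m, A / (i + 1) ≤ ∑ i ∈ Ico (2 ^ L - 1) m, A / 2 ^ L := by
        refine sum_le_sum fun i hi => ?_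
        rw [mem_Ico] at hi
        exact Nat.div_le_div_left (by omega) hpos
      rw [sum_const, Nat.card_Ico, smul_eq_mul] at h2
      have h3 : (m - (2 ^ L - 1)) * (A / 2 ^ L) ≤ 2 ^ L * (A / 2 ^ L) :=
        Nat.mul_le_mul_right _ (by rw [pow_succ] at hm; omega)
      have h4 : 2 ^ L * (A / 2 ^ L) ≤ A := Nat.mul_div_le _ _
      rw [hs, mul_add, mul_one]
      omega

section

variable {μ R N : ℕ} {κ x : ℕ → ℕ}

theorem κ_mono (hP : Play μ R N κ x) {a b : ℕ} (hab : a ≤ b) (hb : b < R) : κ a ≤ κ b := by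
  induction b, hab using Nat.le_induction with
  | base => exact le_rfl
  | succ b hab ih => exact (ih (by omega)).trans (hP.mono b hb)

theorem U_step (h4 : GoalH4) (hμ : 1 ≤ μ) (hR : μ + 2 ≤ R) (hP : Play μ R N κ x) {y : ℕ}
    (hE : Exact μ R N κ x y) {t : ℕ} (ht : t < y) (hJ : R ≤ t + 1 + μ) (hκ : κ (t + 1) = κ t)
    (hx : 0 < x t) : 0 < x (t + 1) ∧
      U μ R x (t + 1) + (N - 1 - κ t) = U μ R x t + oo μ R κ x t + sk μ κ x t := by
  have hyR := hE.1
  have hκt : κ t < N := lt_of_le_of_lt (κ_mono hP ht.le hyR) hE.2.1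
  have h := (h4 μ R N κ x hμ hR hP t (by omega)).1 hκt (by rw [hκ]; exact hκt)
  have hna : na μ R (t + 1) = na μ R t + 1 := by unfold na; omega
  rw [hE.2.2 (t + 1) (by omega), hE.2.2 t (by omega), hκ, Nat.sub_self, zero_mul, hna, mul_add,
    mul_one] at h
  have hinc := hP.inc t (by omega) hx hκ
  have hn1 := hP.nat t (by omega) hκt
  refine ⟨by omega, ?_⟩
  generalize (N - 1 - κ t) * na μ R t = A at h
  unfold na at hn1
  unfold U
  omega

theorem growth (h4 : GoalH4) (hμ : 1 ≤ μ) (hR : μ + 2 ≤ R) (hP : Play μ R N κ x) {y l : ℕ}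
    (hE : Exact μ R N κ x y)
    (hih : ∀ z < y, R ≤ z + 1 + μ →
      (R - 1 - z) + 24 * l * (N - 1 - κ z) ≤ 24 * l * oo μ R κ x z)
    {t1 t2 : ℕ} (ht2 : t2 ≤ y) (hJ : R ≤ t1 + 1 + μ) (hκ : κ t2 = κ t1)
    (hx : 0 < x t1) : ∀ t, t1 ≤ t → t ≤ t2 →
      0 < x t ∧ (t - t1) * (R - 1 - t2) + 24 * l * U μ R x t1 ≤ 24 * l * U μ R x t := by
  intro t ht
  have hyR := hE.1
  induction t, ht using Nat.le_induction with
  | base => intro _; exact ⟨hx, by simp⟩
  | succ t ht ih =>
    intro h2
    obtain ⟨i1, i2⟩ := ih (by omega)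
    have k1 := κ_mono hP (a := t1) (b := t) ht (by omega)
    have k2 := κ_mono hP (a := t) (b := t + 1) (by omega) (by omega)
    have k3 := κ_mono hP (a := t + 1) (b := t2) h2 (by omega)
    obtain ⟨s1, s2⟩ := U_step h4 hμ hR hP hE (t := t) (by omega) (by omega) (by omega) i1
    refine ⟨s1, ?_⟩
    have s3 := hih t (by omega) (by omega)
    have s4 : 24 * l * U μ R x (t + 1) + 24 * l * (N - 1 - κ t) =
        24 * l * U μ R x t + 24 * l * oo μ R κ x t + 24 * l * sk μ κ x t := by
      rw [← mul_add, s2]; ring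
    have s5 : (t + 1 - t1) * (R - 1 - t2) = (t - t1) * (R - 1 - t2) + (R - 1 - t2) := by
      rw [show t + 1 - t1 = (t - t1) + 1 by omega]; ring
    rw [s5]
    have s6 : R - 1 - t2 ≤ R - 1 - t := by omega
    generalize (t - t1) * (R - 1 - t2) = B at *
    generalize 24 * l * U μ R x (t + 1) = a1 at *
    generalize 24 * l * U μ R x t = a2 at *
    generalize 24 * l * U μ R x t1 = a3 at *
    generalize 24 * l * oo μ R κ x t = a4 at *
    generalize 24 * l * sk μ κ x t = a5 at *
    generalize 24 * l * (N - 1 - κ t) = a6 at *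
    omega

end

theorem goalH9 (h1 : GoalH1) (h4 : GoalH4) : GoalH9 := by
  intro μ R N κ x l L y hμ hR hl hP hE hJ hy hih hsec hL
  have hyR := hE.1
  set w := R - 1 - y with hw
  have hw1 : 1 ≤ w := by omega
  set S := (range y).filter (fun t => R - 1 - μ < t ∧ κ t < κ y ∧ 0 < x t ∧ 0 < U μ R x t ∧
    U μ R x t ≤ w) with hS
  have hmaps : ∀ t ∈ S, κ t ∈ Ico (κ (R - 1 - μ)) (κ y) := by
    intro t ht
    rw [hS, mem_filter, mem_range] at ht
    rw [mem_Ico]
    exact ⟨κ_mono hP (by omega) (by omega), ht.2.2.1⟩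
  rw [card_eq_sum_card_fiberwise hmaps]
  set G : ℕ → ℕ := fun j => 1 + (if j < 2 then 24 * l else 3624 * w / (j - 1)) with hG
  have hfib : ∀ c ∈ Ico (κ (R - 1 - μ)) (κ y), (S.filter (fun t => κ t = c)).card ≤
      G (κ y - 1 - c) := by
    intro c hc
    rw [mem_Ico] at hc
    rcases (S.filter (fun t => κ t = c)).eq_empty_or_nonempty with he | hne
    · rw [he, card_empty]; exact Nat.zero_le _
    have m1 := min'_mem _ hne
    have m2 := max'_mem _ hne
    set t1 := (S.filter (fun t => κ t = c)).min' hne with ht1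
    set t2 := (S.filter (fun t => κ t = c)).max' hne with ht2
    rw [hS, mem_filter, mem_filter, mem_range] at m1 m2
    have h12 : t1 ≤ t2 := min'_le_max' _ hne
    have hcard : (S.filter (fun t => κ t = c)).card ≤ t2 + 1 - t1 := by
      rw [← Nat.card_Icc]
      refine card_le_card fun t ht => ?_
      rw [mem_Icc]
      exact ⟨min'_le _ _ ht, le_max' _ _ ht⟩
    set q := (S.filter (fun t => κ t = c)).card with hq
    have hgr := (growth h4 hμ hR hP hE hih (t1 := t1) (t2 := t2) (by omega) (by omega)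
      (by omega) m1.1.2.2.2.1 t2 h12 le_rfl).2
    set X := R - 1 - t2 with hX
    have hXw : w < X := by omega
    -- (q - 1) X ≤ 24 l (w - 1)
    have e1 : (q - 1) * X ≤ (t2 - t1) * X := Nat.mul_le_mul_right _ (by omega)
    have e2 : 24 * l * U μ R x t2 ≤ 24 * l * w := Nat.mul_le_mul_left _ m2.1.2.2.2.2.2
    have e3 : 24 * l * 1 ≤ 24 * l * U μ R x t1 := Nat.mul_le_mul_left _ m1.1.2.2.2.2.1
    have e4 : (q - 1) * X + 24 * l ≤ 24 * l * w := by
      generalize (q - 1) * X = a1 at *
      generalize (t2 - t1) * X = a2 at *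
      generalize 24 * l * U μ R x t2 = a3 at *
      generalize 24 * l * U μ R x t1 = a4 at *
      generalize 24 * l * w = a5 at *
      omega
    rw [hG]
    simp only
    split_ifs with hj
    · -- q ≤ 1 + 24 l
      have e5 : (q - 1) * w ≤ 24 * l * w :=
        (Nat.mul_le_mul_left _ hXw.le).trans (by omega)
      have e6 : q - 1 ≤ 24 * l := Nat.le_of_mul_le_mul_right e5 (by omega)
      omega
    · have hj' : 2 ≤ κ y - 1 - c := by omega
      have e5 := hsec t2 (by omega) (by omega)
      rw [m2.2] at e5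
      have e6 : l * (κ y - 1 - c - 1) ≤ 151 * X := by
        have : κ y - c = (κ y - 1 - c - 1) + 2 := by omega
        rw [this, mul_add] at e5
        omega
      have e7 : l * ((q - 1) * (κ y - 1 - c - 1)) ≤ l * (3624 * w) := by
        calc l * ((q - 1) * (κ y - 1 - c - 1)) = (q - 1) * (l * (κ y - 1 - c - 1)) := by ring
          _ ≤ (q - 1) * (151 * X) := Nat.mul_le_mul_left _ e6
          _ = 151 * ((q - 1) * X) := by ring
          _ ≤ 151 * (24 * l * w) := Nat.mul_le_mul_left _ (by omega)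
          _ = l * (3624 * w) := by ring
      have e8 := Nat.le_of_mul_le_mul_left e7 (by omega)
      have e9 : q - 1 ≤ 3624 * w / (κ y - 1 - c - 1) :=
        (Nat.le_div_iff_mul_le (by omega)).2 e8
      omega
  refine (sum_le_sum hfib).trans ?_
  rw [sum_Ico_eq_sum_range]
  set n := κ y - κ (R - 1 - μ) with hn
  have hrefl : ∑ i ∈ range n, G (κ y - 1 - (κ (R - 1 - μ) + i)) = ∑ j ∈ range n, G j := by
    rw [← sum_range_reflect]
    refine sum_congr rfl fun i hi => ?_
    rw [mem_range] at hi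
    congr 1
    omega
  rw [hrefl, hG, sum_add_distrib, sum_const, card_range, smul_eq_mul, mul_one, add_assoc]
  apply Nat.add_le_add_left
  rcases n with _ | _ | m
  · simp
  · simp only [zero_add, range_one, sum_singleton]
    rw [if_pos (by norm_num)]
    omega
  · rw [sum_range_succ', sum_range_succ']
    have h5 : ∑ i ∈ range m, (if i + 1 + 1 < 2 then 24 * l else 3624 * w / (i + 1 + 1 - 1)) =
        ∑ i ∈ range m, 3624 * w / (i + 1) := by
      refine sum_congr rfl fun i _ => ?_
      rw [if_neg (by omega)]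
      rfl
    rw [h5]
    have h6 := harm (3624 * w) L m (by omega)
    simp only [zero_add]
    rw [if_pos (by norm_num), if_pos (by norm_num)]
    omega

end Pool.Agent.Helper43.Hw.PkH9
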