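import Mathlib
import Pool.Agent.Helper43.Hw.Goals
import Pool.Agent.Helper49.Gm.F2

/-! Project Hw, packet H14: from plays to the triangle. -/

set_option autoImplicit false

namespace Pool.Agent.Helper43.Hw.PkH14

open Finset
open Pool.Agent.Helper43.Gm (st mv nn Run Pri Reg)
open Pool.Agent.Lead.Sh

theorem reg_tri (d : ℕ) :
    Reg 0 (d + 1) (fun _ => 0) (fun b => d + 1 - b) (triD 0 d) := by
  refine ⟨fun p => ?_, fun y _ k _ _ => by omega⟩
  rw [mem_triD]
  simp only [zero_mul, zero_add]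
  omega

theorem goalH14 (hA : Pool.Agent.Helper43.Gm.GoalA) (h2 : GoalH2) (h13 : GoalH13) :
    GoalH14 := by
  intro μ d N κ x hμ hd hP
  obtain ⟨π, ε, hpri⟩ := h13 μ (d + 1) N κ x hμ (by omega) hP
  have hrev := Pool.Agent.Helper43.Gm.PkF2.pri_rev (d + 1) (fun _ => μ) (va μ (d + 1) κ x) π ε N
    hpri
  have hReg := reg_tri d
  refine ⟨fun h => ?_, fun h => ?_⟩
  · refine hA 0 (d + 1) (fun _ => 0) (fun b => d + 1 - b) (triD 0 d)
      (fun p hp => (hReg.1 p).1 hp) N (fun _ => μ) _ _ _ hrev ?_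
    intro y hy
    have h1 := h (d + 1 - 1 - y) (by omega)
    unfold lz at h1
    have h3 : d + 1 - 1 - y + 1 = d + 1 - y := by omega
    rw [h3] at h1
    exact h1
  · obtain ⟨D2, a1, a2, a3⟩ := Pool.Agent.Helper43.Gm.PkF2.fin_ind hA 0 (d + 1) (fun _ => 0)
      (fun b => d + 1 - b) (triD 0 d) hReg N (fun _ => μ) _ _ _ hrev (by
        intro y hy
        have h1 := h (d + 1 - 1 - y) (by omega)
        unfold lz at h1
        have h3 : d + 1 - 1 - y + 1 = d + 1 - y := by omega
        rw [h3] at h1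
        exact h1) (by
        rw [sum_range_reflect (fun y => ∑ c ∈ range N, va μ (d + 1) κ x c y) (d + 1)]
        have h4 := (h2 μ (d + 1) N κ x hμ (by omega) hP).2.2.2
        unfold lz at h4
        rw [h4, sum_const, card_range, smul_eq_mul, T_choose])
    refine ⟨D2, a1, ?_, a3⟩
    rw [a2, card_rows]

end Pool.Agent.Helper43.Hw.PkH14
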