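import Mathlib
import Pool.Agent.Helper43.Hw.Goals

/-! Project Hw, packet H4: loads of consecutive rows. -/

set_option autoImplicit false

namespace Pool.Agent.Helper43.Hw.PkH4

open Finset
open Pool.Agent.Helper43.Gm (st mv nn Run Pri)

section

variable {μ R N : ℕ} {κ x : ℕ → ℕ}

theorem lz_lt {z : ℕ} (hκ : κ z < N) : lz μ R N κ x z =
    ∑ c ∈ range (κ z), va μ R κ x c z + x z + (N - 1 - κ z) * na μ R z := by
  obtain ⟨f, hf⟩ : ∃ f, N = κ z + 1 + f := ⟨N - (κ z + 1), by omega⟩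
  unfold lz
  rw [hf, sum_range_add, sum_range_succ]
  have h1 : va μ R κ x (κ z) z = x z := by
    unfold va nn
    simp
  have h2 : ∑ i ∈ range f, va μ R κ x (κ z + 1 + i) z = ∑ i ∈ range f, na μ R z := by
    refine sum_congr rfl fun i _ => ?_
    unfold va
    rw [if_pos (by omega)]
  rw [h1, h2, sum_const, card_range, smul_eq_mul]
  congr 2
  omega

theorem step_sum (h1 : GoalH1) (hμ : 1 ≤ μ) (hR : μ + 2 ≤ R) (hP : Play μ R N κ x) {y : ℕ}
    (hy : y + 1 < R) : ∑ c ∈ range (κ y), va μ R κ x c (y + 1) + oo μ R κ x y + sk μ κ x y =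
      ∑ c ∈ range (κ y), va μ R κ x c y := by
  have h7 := (h1 μ R N κ x hμ hR hP).2.2.2.2.2.2 y hy
  have e1 : oo μ R κ x y = ∑ c ∈ range (κ y), (if 0 < va μ R κ x c y then 1 else 0) := by
    unfold oo
    rw [card_filter]
  have e2 : sk μ κ x y = ∑ c ∈ range (κ y),
      ((range y).filter (fun t => κ t = c ∧ 0 < x t ∧ μ + t = x t + y)).card := by
    unfold sk
    rw [card_eq_sum_card_fiberwise (f := κ) (t := range (κ y))]
    · refine sum_congr rfl fun c hc => ?_
      rw [mem_range] at hc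
      rw [filter_filter]
      congr 1
      ext t
      simp only [mem_filter]
      constructor
      · rintro ⟨a, b, c⟩
        exact ⟨a, c, b.2⟩
      · rintro ⟨a, b, c⟩
        exact ⟨a, ⟨by omega, c⟩, b⟩
    · intro t ht
      have ht' := (mem_filter.1 ht).2.1
      exact mem_range.2 ht'
  rw [e1, e2, ← sum_add_distrib, ← sum_add_distrib]
  refine sum_congr rfl fun c hc => ?_
  rw [mem_range] at hc
  obtain ⟨a, b⟩ := h7 c hc
  split_ifs with h
  · exact a h
  · obtain ⟨b1, b2⟩ := b (by omega)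
    rw [b1, b2]
    omega

theorem κ_step (h1 : GoalH1) (hμ : 1 ≤ μ) (hR : μ + 2 ≤ R) (hP : Play μ R N κ x) {y : ℕ}
    (hy : y + 1 < R) : ∑ c ∈ range (κ (y + 1)), va μ R κ x c (y + 1) =
      ∑ c ∈ range (κ y), va μ R κ x c (y + 1) + (κ (y + 1) - κ y) * μ := by
  obtain ⟨h11, -, -, h14, -⟩ := h1 μ R N κ x hμ hR hP
  rw [← sum_range_add_sum_Ico _ (hP.mono y hy)]
  congr 1
  have : ∑ c ∈ Ico (κ y) (κ (y + 1)), va μ R κ x c (y + 1) =
      ∑ c ∈ Ico (κ y) (κ (y + 1)), μ := by
    refine sum_congr rfl fun c hc => ?_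
    rw [mem_Ico] at hc
    have a1 := (h11 c y (by omega)).1.1 hc.1
    have a2 : ¬ (y + 1 < sc R κ c) := by
      intro h
      have := (h11 c (y + 1) hy).1.2 h
      omega
    have a3 : sc R κ c = y + 1 := by omega
    have := h14 c (by omega)
    rwa [a3] at this
  rw [this, sum_const, Nat.card_Ico, smul_eq_mul]

end

theorem goalH4 (h1 : GoalH1) : GoalH4 := by
  intro μ R N κ x hμ hR hP y hy
  have s1 := step_sum h1 hμ hR hP hy
  have s2 := κ_step h1 hμ hR hP hy
  have hm := hP.mono y hy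
  have hle := hP.le (y + 1) hy
  refine ⟨fun h h' => ?_, fun h h' => ?_, fun h => ?_, fun h => ?_, fun h h' => ?_⟩
  · rw [lz_lt h, lz_lt h', s2]
    omega
  · have e : lz μ R N κ x (y + 1) = ∑ c ∈ range (κ (y + 1)), va μ R κ x c (y + 1) := by
      unfold lz; rw [h']
    rw [lz_lt h, e, s2, h']
    omega
  · have h' : κ (y + 1) = N := by omega
    have e : lz μ R N κ x (y + 1) = ∑ c ∈ range (κ (y + 1)), va μ R κ x c (y + 1) := by
      unfold lz; rw [h']
    have e' : lz μ R N κ x y = ∑ c ∈ range (κ y), va μ R κ x c y := by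
      unfold lz; rw [h]
    rw [e, e', s2, h', h]
    rw [h] at s1
    simp only [Nat.sub_self, zero_mul, add_zero]
    exact s1
  · rw [lz_lt h]
    unfold bb
    omega
  · obtain ⟨hl1, hl2⟩ : κ (R - 1) = κ (R - 2) ∧ (κ (R - 1) < N → x (R - 1) = μ) :=
      ⟨hP.lastκ, hP.lastx⟩
    have r1 : R - 1 = y + 1 := by omega
    have r2 : R - 2 = y := by omega
    rw [r1, r2] at hl1
    rw [r1] at hl2
    have h2 : κ (y + 1) < N := by omega
    have hx := hl2 h2
    have hlt := hP.lt y hy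
    have hn := hP.nat y (by omega) h
    have hnx : nx μ R x y = μ := by
      unfold nx
      unfold na at hn ⊢
      split_ifs with h3 <;> omega
    rw [lz_lt h2, s2, hx, hl1, Nat.sub_self, zero_mul, add_zero]
    unfold bb
    rw [hnx]
    omega

end Pool.Agent.Helper43.Hw.PkH4
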